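import Pool.Agent.H83.HE.FIN
import Pool.Agent.H2.HE.CNT
import Pool.Agent.H13.HE.ALG
import Pool.Agent.H59.HE.DIV
import Pool.Agent.H64.HE.RED
import Pool.Agent.H82.HE.NZ
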