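import Pool.Agent.H83.HE.Stm

set_option autoImplicit false

namespace Pool.Agent.H83.HE

open Classical in
/-- the proportion of reduced matrices `H(m,n)` among `|m|, |n| ≤ N` -/
noncomputable def dens (a11 a21 a12 a22 a32 a13 a23 a33 : ℤ) (N : ℕ) : ℝ :=
  (((Finset.Icc (-(N : ℤ)) N ×ˢ Finset.Icc (-(N : ℤ)) N).filter
    (fun x : ℤ × ℤ => Reduced (H a11 a21 a12 a22 a32 a13 a23 a33 x.1 x.2))).card : ℝ) /
    (2 * N + 1) ^ 2

theorem det_H (q a12 a22 a13 a23 a33 m n : ℤ) :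
    (H 0 1 a12 a22 q a13 a23 a33 m n).det = (H 0 1 a12 a22 q a13 a23 a33 0 0).det := by
  simp [H, Matrix.det_fin_three]
  ring

theorem t_FIN (hA : S_ALG) (hD : S_DIV) (hN : S_NZ) (hR : S_RED) (hC : S_CNT) :
    ∀ q a12 a22 a13 a23 a33 : ℤ, 1 ≤ q → 0 ≤ a12 → a12 < q → 0 ≤ a22 → a22 < q →
    q ∣ a12 ^ 3 - a12 * a22 - 1 → (H 0 1 a12 a22 q a13 a23 a33 0 0).det = 1 →
    (∀ m n : ℤ, q ∣ a12 * (a12 * n + a13) - (m + a22 * n + a23) →
      Irr (H 0 1 a12 a22 q a13 a23 a33 m n) → Reduced (H 0 1 a12 a22 q a13 a23 a33 m n)) ∧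
    ∀ N : ℕ, (1 : ℝ) / q - 3 / (2 * N + 1) ≤ dens 0 1 a12 a22 q a13 a23 a33 N := by
  intro q a12 a22 a13 a23 a33 hq h1 h2 h3 h4 hdvd hdet
  have key : ∀ m n : ℤ, q ∣ a12 * (a12 * n + a13) - (m + a22 * n + a23) →
      Irr (H 0 1 a12 a22 q a13 a23 a33 m n) → Reduced (H 0 1 a12 a22 q a13 a23 a33 m n) := by
    intro m n hmn hirr
    have hdet' : (H 0 1 a12 a22 q a13 a23 a33 m n).det = 1 := by rw [det_H]; exact hdet
    refine ⟨hdet', ?_, hirr, ?_⟩
    · simp [Perfect, H]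
      omega
    · intro X M' hM' h20
      obtain ⟨h5, h6⟩ := hN _ M' X hM' h20 hirr
      have h7 := hD q a22 a12 _ M' X hM' h20 (hA q a12 a22 a13 a23 a33 m n hq hdvd hdet' hmn)
      have h8 : q ≤ |M' 2 1 * M' 1 0| :=
        Int.le_of_dvd (abs_pos.2 (mul_ne_zero h6 h5)) ((dvd_abs _ _).2 h7)
      have h9 : cpl (H 0 1 a12 a22 q a13 a23 a33 m n) = q := by
        simp [cpl, H]
        omega
      rw [h9]
      unfold cpl
      rw [abs_mul] at h8
      have h10 : 1 ≤ |M' 1 0| := Int.one_le_abs h5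
      have h11 : |M' 2 1| * |M' 1 0| ≤ |M' 1 0| ^ 2 * |M' 2 1| := by
        nlinarith [abs_nonneg (M' 2 1), abs_nonneg (M' 1 0),
          mul_nonneg (abs_nonneg (M' 2 1)) (abs_nonneg (M' 1 0))]
      linarith
  refine ⟨key, fun N => ?_⟩
  unfold dens
  refine @hC q (a12 ^ 2 - a22) (a12 * a13 - a23) (a22 * a33 - a12 - q * a23 - a22 - a33)
    (a22 * a33 - a12 - q * a23 + a22 + a33 + 2) hq N
    (fun x : ℤ × ℤ => Reduced (H 0 1 a12 a22 q a13 a23 a33 x.1 x.2))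
    (fun _ => Classical.propDecidable _) ?_
  intro m n hmn hL1 hL2
  refine key m n ?_ ?_
  · have : a12 * (a12 * n + a13) - (m + a22 * n + a23) =
      (a12 ^ 2 - a22) * n + (a12 * a13 - a23) - m := by ring
    rw [this]; exact hmn
  · by_contra hirr
    have hdet' : (H 0 1 a12 a22 q a13 a23 a33 m n).det = 1 := by rw [det_H]; exact hdet
    rcases hR q a12 a22 a13 a23 a33 m n hdet' hirr with h | h
    · apply hL1; linarith
    · apply hL2; linarith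

end Pool.Agent.H83.HE
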