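import Mathlib

set_option autoImplicit false

/-!
Mini crew HE (helper83), MP_7c801b_nt: lower bounds for the density of reduced Hessenberg matrices.
-/

namespace Pool.Agent.H83.HE

/-- the Hessenberg complexity -/
def cpl (M : Matrix (Fin 3) (Fin 3) ℤ) : ℤ := |M 1 0| ^ 2 * |M 2 1|

/-- perfect Hessenberg matrices -/
def Perfect (M : Matrix (Fin 3) (Fin 3) ℤ) : Prop :=
  M 2 0 = 0 ∧ 0 ≤ M 0 0 ∧ M 0 0 < M 1 0 ∧ 0 ≤ M 0 1 ∧ M 0 1 < M 2 1 ∧ 0 ≤ M 1 1 ∧ M 1 1 < M 2 1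

/-- the characteristic polynomial is irreducible over the rationals -/
def Irr (M : Matrix (Fin 3) (Fin 3) ℤ) : Prop :=
  Irreducible (M.charpoly.map (Int.castRingHom ℚ))

/-- reduced matrices: perfect Hessenberg matrices in `SL(3,ℤ)` with irreducible characteristic
polynomial, such that no conjugate (under `GL(3,ℤ)`) Hessenberg matrix has smaller complexity -/
def Reduced (M : Matrix (Fin 3) (Fin 3) ℤ) : Prop :=
  M.det = 1 ∧ Perfect M ∧ Irr M ∧ ∀ (X : (Matrix (Fin 3) (Fin 3) ℤ)ˣ) (M' : Matrix (Fin 3) (Fin 3) ℤ),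
    M' = X.val * M * X⁻¹.val → M' 2 0 = 0 → cpl M ≤ cpl M'

/-- the matrices of a Hessenberg type `⟨a11, a21 | a12, a22, a32⟩` -/
def H (a11 a21 a12 a22 a32 a13 a23 a33 m n : ℤ) : Matrix (Fin 3) (Fin 3) ℤ :=
  !![a11, a12, a11 * m + a12 * n + a13; a21, a22, a21 * m + a22 * n + a23; 0, a32, a32 * n + a33]

/-- ALG (60 lines). Write `c1 = a12 n + a13`, `c2 = m + a22 n + a23`, `l = q n + a33`; `det H = 1` says
`q c1 - a12 l = 1`. Modulo `q` : `a12 l = -1`, `l^2 - a22 l - a12 = 0` (multiply by `(a12 l)^2 = 1`) and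
`c1 + l c2 = c1 + l a12 c1 = 0`; hence `M^2 = a22 M + a12` modulo `q` entrywise. -/
def S_ALG : Prop := ∀ (q a12 a22 a13 a23 a33 m n : ℤ), 1 ≤ q →
  q ∣ a12 ^ 3 - a12 * a22 - 1 → (H 0 1 a12 a22 q a13 a23 a33 m n).det = 1 →
  q ∣ a12 * (a12 * n + a13) - (m + a22 * n + a23) →
  ∀ i j, q ∣ ((H 0 1 a12 a22 q a13 a23 a33 m n) ^ 2 - a22 • (H 0 1 a12 a22 q a13 a23 a33 m n) -
    a12 • (1 : Matrix (Fin 3) (Fin 3) ℤ)) i j

/-- DIV (60 lines). If `M^2 = a M + b` modulo `q` entrywise and `M' = X M X⁻¹` is Hessenberg then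
`q ∣ (M' 1 0)^2 * M' 2 1` : `M'^2 - a M' - b = X (M^2 - a M - b) X⁻¹` is divisible by `q` entrywise, and its
entry `(2,0)` is `M' 2 1 * M' 1 0` (as `M' 2 0 = 0`). -/
def S_DIV : Prop := ∀ (q a b : ℤ) (M M' : Matrix (Fin 3) (Fin 3) ℤ)
  (X : (Matrix (Fin 3) (Fin 3) ℤ)ˣ), M' = X.val * M * X⁻¹.val → M' 2 0 = 0 →
  (∀ i j, q ∣ (M ^ 2 - a • M - b • (1 : Matrix (Fin 3) (Fin 3) ℤ)) i j) → q ∣ M' 2 1 * M' 1 0

/-- NZ (60 lines). If the characteristic polynomial of `M` is irreducible and `M' = X M X⁻¹` is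
Hessenberg then `M' 1 0 ≠ 0` and `M' 2 1 ≠ 0` : `charpoly M' = charpoly M`
(`Matrix.charpoly_units_conj`); if an entry is 0 then `M' 0 0` or `M' 2 2` is a root
(`Matrix.det_fin_three`), but an irreducible polynomial of degree 3 has no root. -/
def S_NZ : Prop := ∀ (M M' : Matrix (Fin 3) (Fin 3) ℤ)
  (X : (Matrix (Fin 3) (Fin 3) ℤ)ˣ), M' = X.val * M * X⁻¹.val → M' 2 0 = 0 → Irr M →
  M' 1 0 ≠ 0 ∧ M' 2 1 ≠ 0

/-- RED (60 lines). If `det M = 1` and the characteristic polynomial (degree 3, monic, integer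
coefficients, constant term `-1`) is not irreducible over `ℚ` then it has a root 1 or -1
(Gauss; degree 3; rational root theorem), so `det (1 - M) = 0` or `det (-1 - M) = 0`. For
`M = H 0 1 a12 a22 q a13 a23 a33 m n` : the characteristic polynomial is `x^3 - (a22 + a33 + q n) x^2 +
(a22 a33 - a12 - q m - q a23) x - 1`. -/
def S_RED : Prop := ∀ (q a12 a22 a13 a23 a33 m n : ℤ),
  (H 0 1 a12 a22 q a13 a23 a33 m n).det = 1 → ¬ Irr (H 0 1 a12 a22 q a13 a23 a33 m n) →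
  (a22 * a33 - a12 - q * m - q * a23) - (a22 + a33 + q * n) = 0 ∨
  (a22 * a33 - a12 - q * m - q * a23) + (a22 + a33 + q * n) + 2 = 0

/-- CNT (60 lines). For every `n` there are at least `⌊(2N+1)/q⌋ ≥ (2N+1)/q - 1` integers
`m ∈ [-N, N]` with `q ∣ a12 (a12 n + a13) - (m + a22 n + a23)`, and at most two with `L1 = 0` or `L2 = 0`. -/
def S_CNT : Prop := ∀ (q A B C D : ℤ), 1 ≤ q → ∀ N : ℕ, ∀ P : ℤ × ℤ → Prop, ∀ [DecidablePred P],
  (∀ m n : ℤ, q ∣ A * n + B - m → C - q * m - q * n ≠ 0 → D - q * m + q * n ≠ 0 → P (m, n)) →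
  (1 : ℝ) / q - 3 / (2 * N + 1) ≤
    (((Finset.Icc (-(N : ℤ)) N ×ˢ Finset.Icc (-(N : ℤ)) N).filter P).card : ℝ) / (2 * N + 1) ^ 2

end Pool.Agent.H83.HE
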